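import Pool.Agent.N198.TF.Def
import Pool.Agent.N993.CoreG
import Pool.Agent.N998.Rat

/-!
# TF/GAL: distributions modulo 2 at the level `N`, when one of the factors may be 4

The theorems `oddDist_two` and `galois_two` of `Pool/Agent/N198/TF/Stm.lean`.  Extends
`Pool/Agent/N31/TB/Ext.lean` (the case of odd primes); the proofs use the lemmas of
`Pool/Agent/N999/Conv.lean`.
-/

set_option autoImplicit false
set_option linter.unusedSectionVars false

namespace Pool.Agent.N196.TF

open Finset Pool.Agent.H916R2 Pool.Agent.N992 Pool.Agent.N993 Pool.Agent.N198.TB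

set_option allowUnsafeReducibility true in
attribute [local semireducible] cyc

section

variable {ι : Type} [Fintype ι] [LinearOrder ι] {n : ι → ℕ} [∀ i, NeZero (n i)] {N : ℕ} [NeZero N]

/-- the distribution relation at the level `N` -/
lemma dist_ext (hn : Adm' n)
    (hco : Pairwise (fun i j => (n i).Coprime (n j)))
    (hN : ∏ i, n i = N) (E : (∀ i, ZMod (n i)) ≃+* ZMod N) {f : (cyc n).Pt → ℤ}
    (hf : (cyc n).IsD0 univ f) (p d : ℕ) (hp : p.Prime) (hpd : p * d = N) (a : ZMod N) :
    ∑ k ∈ range p, ext f (E.symm (a + (k : ZMod N) * (d : ZMod N))) =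
      ext f (E.symm ((p : ZMod N) * a)) := by
  obtain ⟨i, -, hpi⟩ : ∃ i ∈ (univ : Finset ι), p ∣ n i := by
    rw [← (Nat.Prime.prime hp).dvd_finsetProd_iff, hN]
    exact ⟨d, hpd.symm⟩
  obtain ⟨M, hM⟩ : ∃ M, M = ∏ l ∈ univ.erase i, n l := ⟨_, rfl⟩
  have hNM : n i * M = N := by rw [hM, Finset.mul_prod_erase univ n (mem_univ i), hN]
  have hcop : (n i).Coprime M := by
    rw [hM]
    exact Nat.Coprime.prod_right fun l hl => hco (Finset.ne_of_mem_erase hl).symm
  have hother : ∀ j, j ≠ i → n j ∣ M := by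
    intro j hj
    rw [hM]
    exact Finset.dvd_prod_of_mem n (Finset.mem_erase.mpr ⟨hj, mem_univ j⟩)
  have h2 : E.symm (((p : ℕ) : ZMod N) * a) = p • E.symm a := by
    rw [map_mul, map_natCast, nsmul_eq_mul]
  rw [h2]
  rcases hn i with ⟨hp', hodd⟩ | h4
  · obtain rfl : p = n i := (Nat.prime_dvd_prime_iff_eq hp hp').mp hpi
    obtain rfl : d = M := Nat.eq_of_mul_eq_mul_left hp.pos (hpd.trans hNM.symm)
    have hfact : Fact (n i).Prime := ⟨hp⟩
    have hMu : IsUnit ((d : ℕ) : ZMod (n i)) := by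
      rw [ZMod.isUnit_iff_coprime]; exact hcop.symm
    have hterm : ∀ k : ℕ, E.symm (a + (k : ZMod N) * (d : ZMod N)) =
        Function.update (E.symm a) i (E.symm a i + (k : ZMod (n i)) * (d : ZMod (n i))) := by
      intro k
      have e1 : (k : ZMod N) * (d : ZMod N) = ((k * d : ℕ) : ZMod N) := by push_cast; rfl
      rw [e1, map_add, map_natCast]
      funext l
      by_cases hl : l = i
      · subst hl
        rw [Function.update_self, Pi.add_apply, Pi.natCast_apply]; push_cast; rfl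
      · rw [Function.update_of_ne hl, Pi.add_apply, Pi.natCast_apply]
        have : ((k * d : ℕ) : ZMod (n l)) = 0 := by
          rw [ZMod.natCast_eq_zero_iff]
          exact (hother l hl).mul_left k
        rw [this, add_zero]
    rw [← ext_prime hn hco hf (mem_univ i) hp' hodd (a := E.symm a)
      (fun i hi => absurd (mem_univ i) hi)]
    simp only [hterm]
    refine sum_bij (fun k _ => E.symm a i + (k : ZMod (n i)) * (d : ZMod (n i)))
      (fun _ _ => mem_univ _) ?_ ?_ (fun _ _ => rfl)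
    · intro k hk k' hk' h
      have h3 : (k : ZMod (n i)) = (k' : ZMod (n i)) := hMu.mul_right_cancel (add_left_cancel h)
      rw [ZMod.natCast_eq_natCast_iff'] at h3
      rwa [Nat.mod_eq_of_lt (mem_range.mp hk), Nat.mod_eq_of_lt (mem_range.mp hk')] at h3
    · intro j _
      obtain ⟨u, hu⟩ := hMu
      refine ⟨((j - E.symm a i) * (u⁻¹ : (ZMod (n i))ˣ)).val, mem_range.mpr (ZMod.val_lt _), ?_⟩
      rw [ZMod.natCast_zmod_val, ← hu, mul_assoc, Units.inv_mul, mul_one, add_sub_cancel]
  · obtain rfl : p = 2 := by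
      rw [h4] at hpi
      have h22 : p ∣ 2 ^ 2 := by norm_num; exact hpi
      exact (Nat.prime_dvd_prime_iff_eq hp Nat.prime_two).mp (hp.dvd_of_dvd_pow h22)
    have hdM : d = 2 * M := by
      rw [h4] at hNM
      omega
    rw [sum_range_succ, sum_range_one, ← ext_four hn hco hf (mem_univ i) h4 (a := E.symm a)
      (fun i hi => absurd (mem_univ i) hi)]
    congr 1
    · congr 2
      push_cast; ring
    · congr 1
      have hlM : M % 2 = 1 := by
        have h1 : Nat.Coprime 2 M := Nat.Coprime.coprime_dvd_left (by rw [h4]; norm_num) hcop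
        rw [Nat.coprime_two_left] at h1
        exact Nat.odd_iff.mp h1
      have e1 : ((1 : ℕ) : ZMod N) * (d : ZMod N) = ((d : ℕ) : ZMod N) := by push_cast; ring
      rw [e1, map_add, map_natCast]
      funext j
      by_cases hj : j = i
      · subst hj
        rw [Function.update_self, Pi.add_apply, Pi.natCast_apply]
        congr 1
        have h5 : ((d : ℕ) : ZMod (n j)) = ((2 : ℕ) : ZMod (n j)) := by
          rw [ZMod.natCast_eq_natCast_iff', h4, hdM]
          omega
        rw [h5]; push_cast; rfl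
      · rw [Function.update_of_ne hj, Pi.add_apply, Pi.natCast_apply]
        have : ((d : ℕ) : ZMod (n j)) = 0 := by
          rw [ZMod.natCast_eq_zero_iff, hdM]
          exact (hother j hj).mul_left 2
        rw [this, add_zero]

lemma neg_two_iff {k : ι} (hk : n k = 4) (v : ZMod (n k)) : -v = 2 ↔ v = 2 := by
  have key : ∀ m : ℕ, m = 4 → ∀ v : ZMod m, -v = 2 ↔ v = 2 := by
    intro m hm
    subst hm
    decide
  exact key _ hk v

/-- `ext` of an even system is even -/
lemma ext_even {f : (cyc n).Pt → ℤ} (hc : ∀ x, f ((cyc n).act (cyc n).c x) = f x)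
    (a : ∀ i, ZMod (n i)) : ext f (-a) = ext f a := by
  by_cases hf : Flag a
  · obtain ⟨k, hk4, hk2⟩ := hf
    rw [ext_of_flag f hk4 hk2,
      ext_of_flag f hk4 (by rw [Pi.neg_apply]; exact (neg_two_iff hk4 _).mpr hk2),
      pt_neg, Dat.act_act, mul_comm, ← Dat.act_act, hc, hc]
  · rw [ext_of_not f hf, ext_of_not f, pt_neg, hc]
    rintro ⟨k, hk4, hk2⟩
    exact hf ⟨k, hk4, (neg_two_iff hk4 _).mp hk2⟩

/-- TF/GAL, first part -/
theorem oddDist_two (hn : Adm' n)
    (hco : Pairwise (fun i j => (n i).Coprime (n j)))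
    (hN : ∏ i, n i = N) (E : (∀ i, ZMod (n i)) ≃+* ZMod N) {f : (cyc n).Pt → ℤ}
    (hf : (cyc n).IsD univ f) (hf1 : (cyc n).Ty 1 univ f) (hf0 : f (fun _ => none) = 0) :
    OddDist (fun b : ZMod N => ((ext f (E.symm b) : ℤ) : ZMod 2)) := by
  have hf' : (cyc n).IsD0 univ f := hf
  have hc : ∀ x, f ((cyc n).act (cyc n).c x) = f x := by
    intro x
    have h1 := hf1 x (fun i hi => absurd (mem_univ i) hi)
    rw [Dat.T_triv (Dat.triv_int _), one_smul] at h1
    exact h1
  refine ⟨?_, ?_, ?_⟩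
  · intro a
    rw [map_neg, ext_even hc, CharTwo.neg_eq]
  · intro a ha
    have hz : ∀ i, ¬ IsUnit (E.symm a i) := by
      intro i
      have h2 : E.symm a i + E.symm a i = 0 := by
        rw [← Pi.add_apply, ← map_add, ha, map_zero]; rfl
      rcases hn i with ⟨hp, hodd⟩ | h4
      · have : Fact (n i).Prime := ⟨hp⟩
        have h3 : (2 : ZMod (n i)) ≠ 0 := by
          intro h
          have h4 : ((2 : ℕ) : ZMod (n i)) = 0 := by exact_mod_cast h
          rw [ZMod.natCast_eq_zero_iff] at h4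
          have h5 := (Nat.prime_dvd_prime_iff_eq hp Nat.prime_two).1 h4
          omega
        have h4 : E.symm a i = 0 := by
          rw [← two_mul] at h2
          exact (mul_eq_zero.1 h2).resolve_left h3
        rw [h4]
        exact Pool.Agent.N993.not_isUnit_zero hn
      · have key : ∀ m : ℕ, m = 4 → ∀ v : ZMod m, v + v = 0 → ¬ IsUnit v := by
          intro m hm
          subst hm
          decide
        exact key _ h4 _ h2
    have h1 : pt (E.symm a) = fun _ => none := by
      funext i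
      exact pt_of_not (hz i)
    have h0 : ext f (E.symm a) = 0 := by
      by_cases hfl : Flag (E.symm a)
      · obtain ⟨k, hk4, hk2⟩ := hfl
        have h2 : (cyc n).act ((cyc n).β k) (fun _ => none) = fun _ => none := by
          funext i
          exact Dat.act_apply_none rfl
        rw [ext_of_flag f hk4 hk2, h1, h2, sub_self]
      · rw [ext_of_not f hfl, h1, hf0]
    rw [h0, Int.cast_zero]
  · intro p d hp hpd a
    have h1 := dist_ext hn hco hN E hf' p d hp hpd a
    rw [← h1]
    push_cast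
    rfl

lemma pt_unit_mul (v : (cyc n).GG) {a a' : ∀ i, ZMod (n i)} (h : ∀ i, a' i = vl (v i) * a i) :
    pt a' = (cyc n).act v (pt a) := by
  funext j
  by_cases hu : IsUnit (a j)
  · obtain ⟨w, hw1, hw2⟩ := pt_of_isUnit hu
    rw [Dat.act_apply_some hw1]
    refine pt_of_eq ?_
    rw [vl_mul, hw2, h]
  · rw [Dat.act_apply_none (pt_of_not hu)]
    refine pt_of_not ?_
    rw [h]
    intro h'
    exact hu ((vl_isUnit (v j)).mul_left_iff.mp h')

lemma unit_mul_two_iff {k : ι} (hk : n k = 4) {w : ZMod (n k)} (hw : IsUnit w)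
    (v : ZMod (n k)) : w * v = 2 ↔ v = 2 := by
  have key : ∀ m : ℕ, m = 4 → ∀ w : ZMod m, IsUnit w → ∀ v : ZMod m, w * v = 2 ↔ v = 2 := by
    intro m hm
    subst hm
    decide
  exact key _ hk w hw v

/-- `ext` and the action of the units -/
lemma ext_unit_mul (f : (cyc n).Pt → ℤ) (v : (cyc n).GG) {a a' : ∀ i, ZMod (n i)}
    (h : ∀ i, a' i = vl (v i) * a i) :
    ext f a' = ext (fun y => f ((cyc n).act v y)) a := by
  by_cases hf : Flag a
  · obtain ⟨k, hk4, hk2⟩ := hf
    have hk2' : a' k = 2 := by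
      rw [h]; exact (unit_mul_two_iff hk4 (vl_isUnit (v k)) _).mpr hk2
    rw [ext_of_flag f hk4 hk2', ext_of_flag _ hk4 hk2, pt_unit_mul v h, Dat.act_act, Dat.act_act,
      mul_comm]
  · have hf' : ¬ Flag a' := by
      rintro ⟨k, hk4, hk2⟩
      rw [h] at hk2
      exact hf ⟨k, hk4, (unit_mul_two_iff hk4 (vl_isUnit (v k)) _).mp hk2⟩
    rw [ext_of_not f hf', ext_of_not _ hf, pt_unit_mul v h]

/-- a linear relation between four systems carries over to their `ext` -/
lemma ext_rel {f₁ f₂ f₃ f₄ : (cyc n).Pt → ℤ} (h : ∀ y, f₁ y - f₂ y = f₃ y + f₄ y)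
    (a : ∀ i, ZMod (n i)) : ext f₁ a - ext f₂ a = ext f₃ a + ext f₄ a := by
  by_cases hf : Flag a
  · obtain ⟨k, hk4, hk2⟩ := hf
    rw [ext_of_flag _ hk4 hk2, ext_of_flag _ hk4 hk2, ext_of_flag _ hk4 hk2,
      ext_of_flag _ hk4 hk2]
    have h1 := h (pt a)
    have h2 := h ((cyc n).act ((cyc n).β k) (pt a))
    linarith
  · rw [ext_of_not _ hf, ext_of_not _ hf, ext_of_not _ hf, ext_of_not _ hf]
    exact h _

/-- `ext` of a difference of two integral systems, as a rational system -/
lemma ext_cast_sub (g g' : (cyc n).Pt → ℤ) (a : ∀ i, ZMod (n i)) :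
    ext (fun y => (g y : ℚ) - (g' y : ℚ)) a = ((ext g a : ℤ) : ℚ) - ((ext g' a : ℤ) : ℚ) := by
  by_cases hf : Flag a
  · obtain ⟨k, hk4, hk2⟩ := hf
    rw [ext_of_flag _ hk4 hk2, ext_of_flag _ hk4 hk2, ext_of_flag _ hk4 hk2]
    push_cast
    ring
  · rw [ext_of_not _ hf, ext_of_not _ hf, ext_of_not _ hf]

/-- TF/GAL, second part: Galois invariance -/
theorem galois_two (hn : Adm' n)
    (hco : Pairwise (fun i j => (n i).Coprime (n j)))
    (hN : ∏ i, n i = N) (E : (∀ i, ZMod (n i)) ≃+* ZMod N) {f : (cyc n).Pt → ℤ}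
    (hf : (cyc n).IsD univ f) (hf1 : (cyc n).Ty 1 univ f) (x : ZMod N → ℤ) (hx : Rel x)
    (u : (ZMod N)ˣ) :
    2 ∣ ∑ b, x b * ext f (E.symm ((u : ZMod N) * b)) - ∑ b, x b * ext f (E.symm b) := by
  have hsupp : ∀ x : (cyc n).Pt, (cyc n).Supp univ x := fun x i hi => absurd (mem_univ i) hi
  obtain ⟨v, hv⟩ : ∃ v : (cyc n).GG, ∀ i, vl (v i) = E.symm (u : ZMod N) i := by
    have h1 : ∀ i, IsUnit (E.symm (u : ZMod N) i) := fun i =>
      ((u.isUnit).map E.symm).map (Pi.evalRingHom (fun i => ZMod (n i)) i)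
    exact ⟨fun i => (h1 i).unit, fun i => (h1 i).unit_spec⟩
  have hpt : ∀ b : ZMod N, ext f (E.symm ((u : ZMod N) * b)) =
      ext (fun y => f ((cyc n).act v y)) (E.symm b) := by
    intro b
    refine ext_unit_mul f v fun i => ?_
    rw [map_mul, Pi.mul_apply, hv]
  obtain ⟨g, hg, hg2⟩ := Dat.coh (Dat.triv_int _) (fun i => neg_one_ne_one (hn i)) (θ := 1)
    (by norm_num) hf hf1 v
  have hg0 : (cyc n).IsD0 univ g := hg
  have hg3 : ∀ y, f ((cyc n).act v y) - f y = g y + g ((cyc n).act (cyc n).c y) := by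
    intro y
    have h1 := hg2 y (hsupp y)
    rw [Pi.sub_apply, Dat.T_triv (Dat.triv_int _), Pi.add_apply, Pi.smul_apply,
      Dat.T_triv (Dat.triv_int _), one_smul] at h1
    exact h1
  set h : (cyc n).Pt → ℚ := fun y => (g y : ℚ) - (g ((cyc n).act (cyc n).c y) : ℚ) with hh
  have hhD : (cyc n).IsD0 univ h := (hg0.cast).sub ((hg0.act (cyc n).c).cast)
  have hho : ∀ y, (cyc n).Supp univ y → h ((cyc n).act (cyc n).c y) = - h y := by
    intro y _
    rw [hh]
    beta_reduce
    rw [Dat.act_c_c]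
    ring
  have hdist := oddDist_ext hn hco univ hN 1 (fun i hi => absurd (mem_univ i) hi)
    (fun i _ => Nat.coprime_one_left _) hhD hho
  have hrat := Pool.Agent.N998.rat_zero _ hdist x hx
  have hE : ∀ b : ZMod N, (fun i => ((1 * b.val : ℕ) : ZMod (n i))) = E.symm b := by
    intro b
    rw [one_mul]
    apply E.injective
    rw [← E_natCast E, ZMod.natCast_zmod_val, RingEquiv.apply_symm_apply]
  simp only [hE] at hrat
  set g' : (cyc n).Pt → ℤ := fun y => g ((cyc n).act (cyc n).c y) with hg'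
  have hext : ∀ b : ZMod N, ext h (E.symm b) =
      ((ext g (E.symm b) : ℤ) : ℚ) - ((ext g' (E.symm b) : ℤ) : ℚ) :=
    fun b => ext_cast_sub g g' (E.symm b)
  have h5 : ∑ b, x b * ext g (E.symm b) = ∑ b, x b * ext g' (E.symm b) := by
    have h6 : ∑ b, (x b : ℚ) * ((ext g (E.symm b) : ℤ) : ℚ) =
        ∑ b, (x b : ℚ) * ((ext g' (E.symm b) : ℤ) : ℚ) := by
      rw [← sub_eq_zero, ← sum_sub_distrib, ← hrat]
      refine sum_congr rfl fun b _ => ?_
      rw [hext]
      ring
    exact_mod_cast h6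
  refine ⟨∑ b, x b * ext g (E.symm b), ?_⟩
  rw [two_mul]
  nth_rw 2 [h5]
  rw [← sum_sub_distrib, ← sum_add_distrib]
  refine sum_congr rfl fun b _ => ?_
  rw [← mul_sub, hpt, ext_rel hg3]
  ring

end

end Pool.Agent.N196.TF
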